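import Pool.Agent.R986.BW4

/-!
# MP_763ca5_pr, Q1 (negative answer)

On regular graphs of growing degree, a controller with vanishing bias cannot cover in linear time,
whatever the graph and the strategy.

Idea: give each vertex `v` the weight `q^{N_v}` (`q = d/(d-1)`, `N_v` the number of random steps
made so far from neighbours of `v`) as long as it has not been hit by a random step, freezing it
when `N_v` reaches `Kd`.  The weights are martingales.  Their total stays near `n`, and with
probability `1 - exp(-c d)` the total weight around a given vertex never exceeds `2d`.  If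
everything is covered at time `2Cn`, almost all the weight is carried by vertices with
`N_v = Kd`, and the weighted sum of the `N_v`, whose drift is at most `2d`, is then at least about
`Kdn/4`; this is impossible for `K = 32 C`.
-/

set_option autoImplicit false

open Finset

namespace Pool.Agent.Results.MP_763ca5_pr.NoLinearCover

open R986.BW

variable {V : Type} [Fintype V] [DecidableEq V] {G : SimpleGraph V} [DecidableRel G.Adj]

lemma notCov_cons (y : V) (l : List V) : notCov (y :: l) ≤ notCov l := by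
  unfold notCov
  by_cases h : ∀ u, u ∈ l
  · rw [if_pos h, if_pos (fun u => List.mem_cons_of_mem _ (h u))]
  · rw [if_neg h]; split_ifs <;> norm_num

lemma tail_eq (ε : ℝ) (π : Strategy G) (v : V) (n : ℕ) : tailProb G ε π v n =
    (stepE G ε π)^[n] (fun h => notCov (h.map Prod.fst)) [(v, false)] := by
  rw [iterE_map]; rfl

lemma tail_succ {d : ℕ} (hd : G.IsRegularOfDegree d) (hd2 : 2 ≤ d) {ε : ℝ} (h0 : 0 ≤ ε)
    (h1 : ε ≤ 1) (π : Strategy G) (v : V) (n : ℕ) :
    tailProb G ε π v (n + 1) ≤ tailProb G ε π v n := by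
  rw [tail_eq, tail_eq, Function.iterate_succ_apply]
  apply iterE_mono h0 h1
  intro l
  have h := stepE_le hd hd2 h0 h1 π (f := fun h => notCov (h.map Prod.fst)) (u := 0) le_rfl (by
    intro e l
    rw [add_zero]
    calc ∑ y ∈ G.neighborFinset e.1, notCov (((y, true) :: e :: l).map Prod.fst)
        ≤ ∑ _y ∈ G.neighborFinset e.1, notCov ((e :: l).map Prod.fst) :=
          Finset.sum_le_sum fun y _ => notCov_cons _ _
      _ = _ := by
          rw [Finset.sum_const, SimpleGraph.card_neighborFinset_eq_degree, hd e.1,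
            nsmul_eq_mul]) (by
    intro e l z
    rw [add_zero]
    exact notCov_cons _ _) l
  rwa [add_zero] at h

lemma tail_nonneg {ε : ℝ} (h0 : 0 ≤ ε)
    (h1 : ε ≤ 1) {d : ℕ} (hd : G.IsRegularOfDegree d) (hd2 : 2 ≤ d)
    (π : Strategy G) (v : V) (n : ℕ) : 0 ≤ tailProb G ε π v n := by
  rw [tail_eq]
  have h := iterE_mono h0 h1 π (f := fun _ => (0 : ℝ))
    (g := fun h => notCov (h.map Prod.fst)) (fun l => by unfold notCov; split_ifs <;> norm_num)
    n [(v, false)]
  rwa [iterE_const hd hd2] at h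

lemma qq_pow_le {d : ℕ} (hd2 : 2 ≤ d) (K : ℕ) : qq d ^ (K * d) ≤ Real.exp (2 * K) := by
  have hq := one_le_qq hd2
  have hdpos : (0 : ℝ) < d := by
    have : 0 < d := by omega
    exact_mod_cast this
  have h1 : qq d ≤ Real.exp (qq d / d) := by
    have := Real.add_one_le_exp (qq d - 1)
    rw [qq_sub hd2] at this
    rw [← qq_sub hd2] at this
    rw [← qq_sub hd2]
    linarith
  have h2 : qq d ≤ 2 := by
    unfold qq
    have : (2 : ℝ) ≤ d := by exact_mod_cast hd2
    rw [div_le_iff₀ (by linarith)]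
    linarith
  calc qq d ^ (K * d) ≤ Real.exp (qq d / d) ^ (K * d) :=
        pow_le_pow_left₀ (by linarith) h1 _
    _ = Real.exp (K * qq d) := by
        rw [← Real.exp_nat_mul]
        congr 1
        push_cast
        field_simp
    _ ≤ Real.exp (2 * K) := by
        apply Real.exp_le_exp.2
        have : (0 : ℝ) ≤ K := Nat.cast_nonneg _
        nlinarith

/-- Core estimate: for `d` large and `ε` small the walk is uncovered at time `2cn` with
probability more than one half. -/
lemma core (c : ℕ) (hc : 1 ≤ c) : ∃ d₀ : ℕ, ∃ ε₀ : ℝ, 0 < ε₀ ∧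
    ∀ (V : Type) [Fintype V] [DecidableEq V] (G : SimpleGraph V) [DecidableRel G.Adj] (d : ℕ)
      (ε : ℝ), G.IsRegularOfDegree d → d₀ ≤ d → 2 ≤ d → 0 ≤ ε → ε ≤ ε₀ → ε ≤ 1 →
      ∀ (π : Strategy G) (v : V), 1 / 2 < tailProb G ε π v (2 * c * Fintype.card V) := by
  have hcR : (1 : ℝ) ≤ c := by exact_mod_cast hc
  set K : ℕ := 32 * c with hK
  have hKR : (K : ℝ) = 32 * c := by rw [hK]; push_cast; ring
  have hKpos : (0 : ℝ) < K := by rw [hKR]; linarith
  set b₀ : ℝ := Real.exp (2 * K) with hb₀
  have hb₀1 : 1 ≤ b₀ := Real.one_le_exp (by positivity)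
  set t : ℝ := 1 / (2 * b₀ ^ 2 * K) with ht
  have htpos : 0 < t := by positivity
  refine ⟨⌈16 * b₀ / t ^ 2⌉₊ + ⌈2 * K * b₀ ^ 2⌉₊, 1 / (2 * K * b₀), by positivity, ?_⟩
  intro V _ _ G _ d ε hd hd0 hd2 h0 h1 h1' π v
  by_contra hcon
  push Not at hcon
  have hq := one_le_qq hd2
  have hdpos : (0 : ℝ) < d := by
    have : 0 < d := by omega
    exact_mod_cast this
  set N : ℝ := ((Fintype.card V : ℕ) : ℝ) with hN
  have hdN : (d : ℝ) ≤ N := by
    have := G.degree_lt_card_verts v
    rw [hd v] at this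
    rw [hN]
    exact_mod_cast this.le
  have hNpos : 0 < N := hdpos.trans_le hdN
  have hd0' : 16 * b₀ / t ^ 2 + 2 * K * b₀ ^ 2 ≤ d := by
    have a1 := Nat.le_ceil (16 * b₀ / t ^ 2)
    have a2 := Nat.le_ceil (2 * K * b₀ ^ 2)
    have a3 : ((⌈16 * b₀ / t ^ 2⌉₊ + ⌈2 * K * b₀ ^ 2⌉₊ : ℕ) : ℝ) ≤ d := by exact_mod_cast hd0
    push_cast at a3
    linarith
  have hx1 : 16 * b₀ / t ^ 2 ≤ d := by
    have : 0 ≤ 2 * K * b₀ ^ 2 := by positivity
    linarith
  have hx2 : 2 * K * b₀ ^ 2 ≤ d := by
    have : 0 ≤ 16 * b₀ / t ^ 2 := by positivity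
    linarith
  set b : ℝ := qq d ^ (K * d) with hb
  have hbpos : 0 < b := by positivity
  have hbb : b ≤ b₀ := qq_pow_le hd2 K
  have hb2 : b ^ 2 ≤ b₀ ^ 2 := pow_le_pow_left₀ hbpos.le hbb 2
  have htb : t * b ≤ 1 := by
    calc t * b ≤ t * b₀ := mul_le_mul_of_nonneg_left hbb htpos.le
      _ = 1 / (2 * b₀ * K) := by rw [ht]; field_simp
      _ ≤ 1 := by
        rw [div_le_one (by positivity)]
        rw [hKR]
        nlinarith
  have main := main_ineq hd hd2 (K * d) h0 h1' π v (2 * c * Fintype.card V) htpos.le htb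
  rw [← hb, ← hN] at main
  push_cast at main
  rw [← hN] at main
  -- exponential term
  have hE : Real.exp (-(t * d) + t ^ 2 * b ^ 2 * (K * d)) ≤ Real.exp (-(t * d / 2)) := by
    apply Real.exp_le_exp.2
    have e1 : t ^ 2 * b₀ ^ 2 * (K * d) = t * d / 2 := by
      rw [ht]; field_simp
    have e2 : t ^ 2 * b ^ 2 * (K * d) ≤ t ^ 2 * b₀ ^ 2 * (K * d) := by
      apply mul_le_mul_of_nonneg_right _ (by positivity)
      exact mul_le_mul_of_nonneg_left hb2 (by positivity)
    linarith
  have hE2 : b₀ * d * Real.exp (-(t * d / 2)) ≤ 1 / 2 := by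
    have e1 : (t * d / 2) ^ 2 / 2 ≤ Real.exp (t * d / 2) := by
      have := Real.quadratic_le_exp_of_nonneg (by positivity : 0 ≤ t * d / 2)
      have h3 : 0 ≤ t * d / 2 := by positivity
      linarith
    rw [Real.exp_neg, ← div_eq_mul_inv, div_le_iff₀ (Real.exp_pos _)]
    have e2 : b₀ * d ≤ 1 / 2 * ((t * d / 2) ^ 2 / 2) := by
      rw [div_le_iff₀ (by positivity)] at hx1
      nlinarith
    linarith
  have hexp : b * (d : ℝ) ^ 2 * (N * Real.exp (-(t * d) + t ^ 2 * b ^ 2 * (K * d))) ≤
      d * N * (1 / 2) := by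
    calc _ ≤ b₀ * (d : ℝ) ^ 2 * (N * Real.exp (-(t * d / 2))) := by
          apply mul_le_mul
          · exact mul_le_mul_of_nonneg_right hbb (by positivity)
          · exact mul_le_mul_of_nonneg_left hE hNpos.le
          · positivity
          · positivity
      _ = d * N * (b₀ * d * Real.exp (-(t * d / 2))) := by ring
      _ ≤ _ := mul_le_mul_of_nonneg_left hE2 (by positivity)
  have hterm2 : ((K : ℝ) * d * b) * (1 + 2 * c * N * ε) ≤ d * N * (1 / 2) + d * N * c := by
    have e1 : (K : ℝ) * b ≤ N * (1 / 2) := by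
      have a1 : (K : ℝ) * b ≤ K * b₀ ^ 2 := by
        apply mul_le_mul_of_nonneg_left _ hKpos.le
        nlinarith
      linarith
    have e2 : (K : ℝ) * b * (2 * c * ε) ≤ c := by
      have a1 : (K : ℝ) * b * (2 * c * ε) ≤ K * b₀ * (2 * c * (1 / (2 * K * b₀))) := by
        apply mul_le_mul
        · exact mul_le_mul_of_nonneg_left hbb hKpos.le
        · exact mul_le_mul_of_nonneg_left h1 (by positivity)
        · positivity
        · positivity
      refine a1.trans (le_of_eq ?_)
      field_simp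
    calc _ = d * ((K : ℝ) * b) + d * N * ((K : ℝ) * b * (2 * c * ε)) := by ring
      _ ≤ d * (N * (1 / 2)) + d * N * c := by
          apply add_le_add
          · exact mul_le_mul_of_nonneg_left e1 hdpos.le
          · exact mul_le_mul_of_nonneg_left e2 (by positivity)
      _ = _ := by ring
  have hterm3 : (K : ℝ) * d * (N * tailProb G ε π v (2 * c * Fintype.card V) +
      (1 / N * (2 * c * N * b ^ 2) + N / 4)) ≤
      d * N * (K * (3 / 4)) + d * N * c := by
    have e1 : 1 / N * (2 * c * N * b ^ 2) = 2 * c * b ^ 2 := by field_simp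
    rw [e1]
    have e2 : (K : ℝ) * (2 * c * b ^ 2) ≤ N * c := by
      have a1 : (K : ℝ) * (2 * c * b ^ 2) ≤ K * (2 * c * b₀ ^ 2) := by
        apply mul_le_mul_of_nonneg_left _ hKpos.le
        exact mul_le_mul_of_nonneg_left hb2 (by positivity)
      have a2 : (K : ℝ) * (2 * c * b₀ ^ 2) = (2 * K * b₀ ^ 2) * c := by ring
      have a3 : (2 * K * b₀ ^ 2) * c ≤ N * c :=
        mul_le_mul_of_nonneg_right (hx2.trans hdN) (by linarith)
      linarith
    have e3 : N * tailProb G ε π v (2 * c * Fintype.card V) ≤ N * (1 / 2) :=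
      mul_le_mul_of_nonneg_left hcon hNpos.le
    calc _ = d * ((K : ℝ) * (N * tailProb G ε π v (2 * c * Fintype.card V)) +
          K * (2 * c * b ^ 2) + K * (N / 4)) := by ring
      _ ≤ d * ((K : ℝ) * (N * (1 / 2)) + N * c + K * (N / 4)) := by
          apply mul_le_mul_of_nonneg_left _ hdpos.le
          have := mul_le_mul_of_nonneg_left e3 hKpos.le
          linarith
      _ = _ := by ring
  have hfin : (K : ℝ) * d * N ≤ d * N * (4 * c + 1 / 2 + (1 / 2 + c) + (K * (3 / 4) + c)) := by
    have : (2 : ℝ) * c * N * (2 * d) = d * N * (4 * c) := by ring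
    rw [this] at main
    linarith
  have hfin2 : (K : ℝ) ≤ 4 * c + 1 / 2 + (1 / 2 + c) + (K * (3 / 4) + c) := by
    have hpos : 0 < (d : ℝ) * N := by positivity
    have e : (K : ℝ) * d * N = d * N * K := by ring
    rw [e] at hfin
    exact le_of_mul_le_mul_left hfin hpos
  rw [hKR] at hfin2
  linarith

/-- Q1 of MP_763ca5_pr has a negative answer: for every `C` there are `d₀` and `ε₀ > 0` such that
on every connected `d`-regular graph on `n` vertices with `d ≥ d₀`, the `ε`-biased cover time with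
`0 < ε ≤ ε₀` is larger than `C n`. -/
theorem result : ∀ C : ℝ, ∃ d₀ : ℕ, ∃ ε₀ : ℝ, 0 < ε₀ ∧
    ∀ (V : Type) [Fintype V] [DecidableEq V] (G : SimpleGraph V) [DecidableRel G.Adj] (d : ℕ)
      (ε : ℝ), G.Connected → G.IsRegularOfDegree d → d₀ ≤ d → 0 < ε → ε ≤ ε₀ →
      ENNReal.ofReal (C * Fintype.card V) < tcov G ε := by
  intro C
  obtain ⟨c, hc⟩ := exists_nat_gt (max C 1)
  have hcC : C < c := (le_max_left _ _).trans_lt hc
  have hc1 : 1 ≤ c := by
    have : (1 : ℝ) < c := (le_max_right _ _).trans_lt hc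
    exact_mod_cast this.le
  obtain ⟨d₀, ε₀, hε₀, hcore⟩ := core c hc1
  refine ⟨max d₀ 2, min ε₀ 1, by positivity, ?_⟩
  intro V _ _ G _ d ε hconn hd hd0 hε hε1
  have hd2 : 2 ≤ d := (le_max_right _ _).trans hd0
  have h1 : ε ≤ 1 := hε1.trans (min_le_right _ _)
  obtain ⟨v⟩ := hconn.nonempty
  have hNpos : (0 : ℝ) < Fintype.card V := by
    have : 0 < Fintype.card V := Fintype.card_pos_iff.2 ⟨v⟩
    exact_mod_cast this
  have key : ∀ π : Strategy G, ENNReal.ofReal (c * Fintype.card V) ≤ expCov G ε π v := by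
    intro π
    have ht := hcore V G d ε hd ((le_max_left _ _).trans hd0) hd2 hε.le
      (hε1.trans (min_le_left _ _)) h1 π v
    have hanti : Antitone (tailProb G ε π v) :=
      antitone_nat_of_succ_le fun n => tail_succ hd hd2 hε.le h1 π v n
    calc ENNReal.ofReal (c * Fintype.card V)
        = ∑ _n ∈ Finset.range (2 * c * Fintype.card V), ENNReal.ofReal (1 / 2) := by
          rw [Finset.sum_const, Finset.card_range, nsmul_eq_mul, ← ENNReal.ofReal_natCast,
            ← ENNReal.ofReal_mul (Nat.cast_nonneg _)]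
          congr 1
          push_cast
          ring
      _ ≤ ∑ n ∈ Finset.range (2 * c * Fintype.card V), ENNReal.ofReal (tailProb G ε π v n) := by
          apply Finset.sum_le_sum
          intro n hn
          apply ENNReal.ofReal_le_ofReal
          exact ht.le.trans (hanti (Finset.mem_range.1 hn).le)
      _ ≤ expCov G ε π v := ENNReal.sum_le_tsum _
  have h2 : ENNReal.ofReal (c * Fintype.card V) ≤ tcov G ε := by
    unfold tcov
    exact (le_iInf key).trans (le_iSup (fun v => ⨅ π : Strategy G, expCov G ε π v) v)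
  refine lt_of_lt_of_le ?_ h2
  rw [ENNReal.ofReal_lt_ofReal_iff (by positivity)]
  exact mul_lt_mul_of_pos_right hcC hNpos

end Pool.Agent.Results.MP_763ca5_pr.NoLinearCover
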